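import Mathlib

/-!
Return times of the rotation by one radian, and the minimisation problem used for
`MP_7f3d09_an`.
-/

open Filter Topology Finset Real

namespace Pool.Agent.H66.L1


lemma cos_nat_ne_one {g : ℕ} (hg : 1 ≤ g) : Real.cos g ≠ 1 := by
  intro h
  rw [Real.cos_eq_one_iff] at h
  obtain ⟨n, hn⟩ := h
  have hn0 : n ≠ 0 := by
    rintro rfl
    have h1 : (g : ℝ) = 0 := by rw [← hn]; simp
    have h2 : g = 0 := by exact_mod_cast h1
    omega
  have hpi : π = ((g : ℚ) / (2 * (n : ℚ)) : ℚ) := by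
    push_cast
    have : (n : ℝ) ≠ 0 := by exact_mod_cast hn0
    field_simp
    linarith
  exact irrational_pi ⟨_, hpi.symm⟩

/-- If `g` runs over `1, ..., G`, then `1 - cos g` stays away from `0`. -/
lemma exists_gap (G : ℕ) : ∃ η : ℝ, 0 < η ∧ ∀ g : ℕ, 1 ≤ g → g ≤ G → η < 1 - Real.cos g := by
  induction G with
  | zero => exact ⟨1, one_pos, fun g h1 h2 => by omega⟩
  | succ G ih =>
    obtain ⟨η, h0, h⟩ := ih
    have h3 : 0 < 1 - Real.cos ((G + 1 : ℕ) : ℝ) := by
      have h4 := cos_nat_ne_one (g := G + 1) (by omega)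
      have h5 := Real.cos_le_one ((G + 1 : ℕ) : ℝ)
      rcases lt_or_eq_of_le h5 with h6 | h6
      · linarith
      · exact absurd h6 h4
    refine ⟨min η ((1 - Real.cos ((G + 1 : ℕ) : ℝ)) / 2), by positivity, fun g hg1 hg2 => ?_⟩
    rcases Nat.lt_or_ge g (G + 1) with h7 | h7
    · exact lt_of_le_of_lt (min_le_left _ _) (h g hg1 (by omega))
    · have : g = G + 1 := by omega
      subst this
      exact lt_of_le_of_lt (min_le_right _ _) (by linarith)

lemma one_sub_cos_sub_le (a b : ℝ) :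
    1 - Real.cos (a - b) ≤ 2 * (1 - Real.cos a) + 2 * (1 - Real.cos b) := by
  rw [Real.cos_sub]
  nlinarith [sq_nonneg (Real.cos a + Real.cos b - 2), sq_nonneg (Real.sin a + Real.sin b),
    Real.sin_sq_add_cos_sq a, Real.sin_sq_add_cos_sq b]

/-- Good times `i` with `1 - cos i ≤ η` occur with bounded gaps. -/
lemma exists_good (η : ℝ) (hη : 0 < η) :
    ∃ T : ℕ, ∀ j : ℕ, ∃ i : ℕ, j < i ∧ i ≤ j + T ∧ 1 - Real.cos i ≤ η := by
  -- a small return time
  obtain ⟨n, hn0, hn⟩ : ∃ n : ℕ, 0 < n ∧ (2 * π / (n + 1)) ^ 2 / 2 ≤ η := by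
    have h1 : Tendsto (fun n : ℕ => (2 * π / ((n : ℝ) + 1)) ^ 2 / 2) atTop (𝓝 ((0:ℝ) ^ 2 / 2)) := by
      refine Tendsto.div_const (Tendsto.pow ?_ 2) 2
      have := (tendsto_one_div_add_atTop_nhds_zero_nat (𝕜 := ℝ)).const_mul (2 * π)
      simpa [div_eq_mul_inv] using this
    have h2 : ∀ᶠ n : ℕ in atTop, (2 * π / ((n : ℝ) + 1)) ^ 2 / 2 < η :=
      h1.eventually_lt_const (by simpa using hη)
    obtain ⟨n, hn⟩ := (h2.and (eventually_gt_atTop 0)).exists
    exact ⟨n, hn.2, hn.1.le⟩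
  obtain ⟨k, hk0, -, hk⟩ := Real.exists_nat_abs_mul_sub_round_le (1 / (2 * π)) hn0
  set m : ℤ := round ((k : ℝ) * (1 / (2 * π))) with hm
  set s : ℝ := k - 2 * π * m with hs
  have hpi := Real.pi_pos
  have hs_le : |s| ≤ 2 * π / (n + 1) := by
    have : s = 2 * π * ((k : ℝ) * (1 / (2 * π)) - m) := by
      rw [hs]; field_simp
    rw [this, abs_mul, abs_of_pos (by positivity : (0:ℝ) < 2 * π)]
    calc 2 * π * |(k : ℝ) * (1 / (2 * π)) - m| ≤ 2 * π * (1 / (n + 1)) := by gcongr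
      _ = 2 * π / (n + 1) := by ring
  have hs0 : s ≠ 0 := by
    intro h0
    apply cos_nat_ne_one (g := k) hk0
    rw [Real.cos_eq_one_iff]
    exact ⟨m, by linarith⟩
  have hcos : ∀ x : ℝ, |x| ≤ |s| → 1 - Real.cos x ≤ η := by
    intro x hx
    have h1 := Real.one_sub_sq_div_two_le_cos (x := x)
    have h2 : x ^ 2 ≤ (2 * π / (n + 1)) ^ 2 := by
      rw [← sq_abs x]
      have := hx.trans hs_le
      gcongr
    linarith
  refine ⟨1 + k * (⌊2 * π / |s|⌋₊ + 1), fun j => ?_⟩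
  set x : ℝ := (j : ℝ) + 1 with hx
  have hs_pos : 0 < |s| := abs_pos.2 hs0
  -- pick `t` and `M` with `|x + t s - 2 π M| < |s|`
  obtain ⟨t, M, ht, hM⟩ : ∃ (t : ℕ) (M : ℤ), t ≤ ⌊2 * π / |s|⌋₊ ∧ |x + t * s - 2 * π * M| ≤ |s| := by
    rcases lt_or_gt_of_ne hs0 with hneg | hpos
    · -- s < 0
      set M : ℤ := ⌊x / (2 * π)⌋ with hM
      set y : ℝ := x - 2 * π * M with hy
      have hy0 : 0 ≤ y := by
        have := Int.floor_le (x / (2 * π))
        rw [le_div_iff₀ (by positivity)] at this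
        rw [hy, hM]; linarith
      have hy1 : y < 2 * π := by
        have := Int.lt_floor_add_one (x / (2 * π))
        rw [div_lt_iff₀ (by positivity)] at this
        rw [hy, hM]; linarith
      refine ⟨⌊y / |s|⌋₊, M, Nat.floor_mono (by gcongr), ?_⟩
      have h1 := Nat.floor_le (a := y / |s|) (by positivity)
      have h2 := Nat.lt_floor_add_one (y / |s|)
      rw [le_div_iff₀ hs_pos] at h1
      rw [div_lt_iff₀ hs_pos] at h2
      generalize ⌊y / |s|⌋₊ = t at h1 h2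
      have h4 : x + (t : ℝ) * s - 2 * π * M = y - (t : ℝ) * |s| := by
        rw [hy, abs_of_neg hneg]
        ring
      rw [h4, abs_le]
      constructor <;> nlinarith
    · set M : ℤ := ⌈x / (2 * π)⌉ with hM
      set y : ℝ := 2 * π * M - x with hy
      have hy0 : 0 ≤ y := by
        have := Int.le_ceil (x / (2 * π))
        rw [div_le_iff₀ (by positivity)] at this
        rw [hy, hM]; linarith
      have hy1 : y < 2 * π := by
        have := Int.ceil_lt_add_one (x / (2 * π))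
        rw [← sub_lt_iff_lt_add, lt_div_iff₀ (by positivity)] at this
        rw [hy, hM]; linarith
      refine ⟨⌊y / |s|⌋₊, M, Nat.floor_mono (by gcongr), ?_⟩
      have h1 := Nat.floor_le (a := y / |s|) (by positivity)
      have h2 := Nat.lt_floor_add_one (y / |s|)
      rw [le_div_iff₀ hs_pos] at h1
      rw [div_lt_iff₀ hs_pos] at h2
      generalize ⌊y / |s|⌋₊ = t at h1 h2
      have h4 : x + (t : ℝ) * s - 2 * π * M = -(y - (t : ℝ) * |s|) := by
        rw [hy, abs_of_pos hpos]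
        ring
      rw [h4, abs_neg, abs_le]
      constructor <;> nlinarith
  refine ⟨j + 1 + t * k, by omega, ?_, ?_⟩
  · have : t * k ≤ k * (⌊2 * π / |s|⌋₊ + 1) := by
      rw [mul_comm]
      exact Nat.mul_le_mul_left _ (by omega)
    omega
  · have h5 : ((j + 1 + t * k : ℕ) : ℝ) = (x + t * s - 2 * π * M) + ((t : ℤ) * m + M : ℤ) * (2 * π) := by
      push_cast
      rw [hx, hs]; ring
    rw [h5, Real.cos_add_int_mul_two_pi]
    exact hcos _ hM



/-- The cost function `c(k) = k (2 - cos k)`. -/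
noncomputable def cst (k : ℕ) : ℝ := k * (2 - Real.cos k)

lemma le_cst (k : ℕ) : (k : ℝ) ≤ cst k := by
  unfold cst
  have := Real.cos_le_one (k : ℝ)
  nlinarith [Nat.cast_nonneg (α := ℝ) k]

lemma cst_le (k : ℕ) : cst k ≤ 3 * k := by
  unfold cst
  have := Real.neg_one_le_cos (k : ℝ)
  nlinarith [Nat.cast_nonneg (α := ℝ) k]

lemma cst_nonneg (k : ℕ) : 0 ≤ cst k := (Nat.cast_nonneg k).trans (le_cst k)

/-- Admissible tail functions. -/
def Adm (g : ℕ → ℝ) : Prop := g 0 = 1 ∧ ∀ k, g k / 2 ≤ g (k + 1) ∧ g (k + 1) ≤ g k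

/-- Partial costs. -/
noncomputable def pc (g : ℕ → ℝ) (N : ℕ) : ℝ :=
  ∑ k ∈ range N, cst k * (g k - g (k + 1)) + N * g N

lemma Adm.pos {g : ℕ → ℝ} (h : Adm g) (k : ℕ) : 0 < g k := by
  induction k with
  | zero => rw [h.1]; exact one_pos
  | succ k ih => have := (h.2 k).1; linarith

lemma Adm.antitone {g : ℕ → ℝ} (h : Adm g) : Antitone g :=
  antitone_nat_of_succ_le fun k => (h.2 k).2

lemma Adm.le_one {g : ℕ → ℝ} (h : Adm g) (k : ℕ) : g k ≤ 1 := by
  have := h.antitone (Nat.zero_le k)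
  rwa [h.1] at this

lemma pc_succ (g : ℕ → ℝ) (N : ℕ) :
    pc g (N + 1) = pc g N + ((cst N - N) * (g N - g (N + 1)) + g (N + 1)) := by
  unfold pc
  rw [sum_range_succ]
  push_cast
  ring

lemma Adm.pc_mono {g : ℕ → ℝ} (h : Adm g) : Monotone (pc g) := by
  refine monotone_nat_of_le_succ fun N => ?_
  rw [pc_succ]
  have h1 := le_cst N
  have h2 := (h.2 N).2
  have h3 := h.pos (N + 1)
  nlinarith [mul_nonneg (sub_nonneg.2 h1) (sub_nonneg.2 h2)]

lemma isClosed_adm : IsClosed {g : ℕ → ℝ | Adm g} := by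
  unfold Adm
  apply IsClosed.and
  · exact isClosed_eq (continuous_apply 0) continuous_const
  · rw [Set.ofPred_forall]
    refine isClosed_iInter fun k => ?_
    exact (isClosed_le ((continuous_apply k).div_const 2) (continuous_apply (k + 1))).and
      (isClosed_le (continuous_apply (k + 1)) (continuous_apply k))

lemma continuous_pc (N : ℕ) : Continuous fun g : ℕ → ℝ => pc g N := by
  unfold pc
  refine Continuous.add (continuous_finsetSum _ fun k _ => ?_) ?_
  · exact continuous_const.mul ((continuous_apply k).sub (continuous_apply (k + 1)))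
  · exact continuous_const.mul (continuous_apply N)

lemma adm_geom : Adm fun k => (1 / 2 : ℝ) ^ k := by
  refine ⟨by simp, fun k => ⟨?_, ?_⟩⟩
  · simp only [pow_succ]; linarith
  · simp only [pow_succ]
    have : (0:ℝ) < (1 / 2) ^ k := by positivity
    linarith

/-- Abel summation. -/
lemma sum_id_mul (g : ℕ → ℝ) (N : ℕ) :
    ∑ k ∈ range N, (k : ℝ) * (g k - g (k + 1)) + N * g N = ∑ k ∈ range N, g (k + 1) := by
  induction N with
  | zero => simp
  | succ N ih =>
    rw [sum_range_succ, sum_range_succ, ← ih]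
    push_cast
    ring

lemma pc_geom_le (N : ℕ) : pc (fun k => (1 / 2 : ℝ) ^ k) N ≤ 6 := by
  have h1 : pc (fun k => (1 / 2 : ℝ) ^ k) N ≤
      3 * (∑ k ∈ range N, (k : ℝ) * ((1 / 2 : ℝ) ^ k - (1 / 2 : ℝ) ^ (k + 1)) + N * (1 / 2 : ℝ) ^ N) := by
    unfold pc
    rw [mul_add, mul_sum]
    refine add_le_add (sum_le_sum fun k _ => ?_) ?_
    · have h2 := cst_le k
      have h3 : 0 ≤ (1 / 2 : ℝ) ^ k - (1 / 2 : ℝ) ^ (k + 1) := sub_nonneg.2 (adm_geom.2 k).2
      nlinarith [mul_le_mul_of_nonneg_right h2 h3]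
    · have : 0 ≤ (N : ℝ) * (1 / 2 : ℝ) ^ N := by positivity
      linarith
  rw [sum_id_mul (fun k => (1 / 2 : ℝ) ^ k) N] at h1
  have h2 : ∑ k ∈ range N, (1 / 2 : ℝ) ^ (k + 1) ≤ 2 := by
    have : ∀ N, ∑ k ∈ range N, (1 / 2 : ℝ) ^ (k + 1) = 1 - (1 / 2 : ℝ) ^ N := by
      intro N
      induction N with
      | zero => simp
      | succ N ih => rw [sum_range_succ, ih]; ring
    rw [this]
    have : (0:ℝ) < (1 / 2) ^ N := by positivity
    linarith
  linarith

/-- `m` is the minimal cost and `g` is a minimiser. -/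
def IsMin (m : ℝ) (g : ℕ → ℝ) : Prop :=
  Adm g ∧ (∀ N, pc g N ≤ m) ∧ ∀ (g' : ℕ → ℝ) (J : ℝ), Adm g' → (∀ N, pc g' N ≤ J) → m ≤ J

lemma exists_isMin : ∃ m g, IsMin m g := by
  set S : Set ℝ := {J | ∃ g, Adm g ∧ ∀ N, pc g N ≤ J} with hS
  have hne : S.Nonempty := ⟨6, _, adm_geom, pc_geom_le⟩
  have hbd : BddBelow S := by
    refine ⟨0, ?_⟩
    rintro J ⟨g, -, h2⟩
    simpa [pc] using h2 0
  set m := sInf S with hm
  let A : ℕ → Set (ℕ → ℝ) := fun n => {g | Adm g} ∩ ⋂ N, {g | pc g N ≤ m + 1 / (n + 1)}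
  have hAc : ∀ n, IsClosed (A n) := fun n =>
    isClosed_adm.inter (isClosed_iInter fun N => isClosed_le (continuous_pc N) continuous_const)
  have hAne : ∀ n, (A n).Nonempty := by
    intro n
    have : m < m + 1 / ((n : ℝ) + 1) := by
      have : (0:ℝ) < 1 / ((n : ℝ) + 1) := by positivity
      linarith
    obtain ⟨J, ⟨g, h1, h2⟩, h3⟩ := exists_lt_of_csInf_lt hne this
    exact ⟨g, h1, Set.mem_iInter.2 fun N => (h2 N).trans h3.le⟩
  have hAanti : ∀ n, A (n + 1) ⊆ A n := by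
    intro n g hg
    refine ⟨hg.1, Set.mem_iInter.2 fun N => ?_⟩
    have h5 := Set.mem_iInter.1 hg.2 N
    rw [Set.mem_ofPred_eq] at h5 ⊢
    refine le_trans h5 ?_
    have : (1:ℝ) / (((n + 1 : ℕ) : ℝ) + 1) ≤ 1 / ((n : ℝ) + 1) := by
      apply one_div_le_one_div_of_le (by positivity)
      push_cast; linarith
    linarith
  have hcomp : IsCompact (A 0) := by
    apply IsCompact.of_isClosed_subset (isCompact_univ_pi fun _ : ℕ => isCompact_Icc (a := (0:ℝ)) (b := 1))
      (hAc 0)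
    intro g hg k _
    exact ⟨(Adm.pos hg.1 k).le, Adm.le_one hg.1 k⟩
  obtain ⟨g, hg⟩ := IsCompact.nonempty_iInter_of_sequence_nonempty_isCompact_isClosed A hAanti hAne
    hcomp hAc
  rw [Set.mem_iInter] at hg
  refine ⟨m, g, (hg 0).1, fun N => ?_, fun g' J h1 h2 => csInf_le hbd ⟨g', h1, h2⟩⟩
  have h1 : Tendsto (fun n : ℕ => m + 1 / ((n : ℝ) + 1)) atTop (𝓝 (m + 0)) :=
    tendsto_const_nhds.add tendsto_one_div_add_atTop_nhds_zero_nat
  rw [add_zero] at h1
  exact ge_of_tendsto' h1 fun n => Set.mem_iInter.1 (hg n).2 N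


end Pool.Agent.H66.L1
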