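import Pool.Agent.H66.L1.Exchange

open Filter Topology Finset Real

namespace Pool.Agent.H66.L1

lemma bern {x : ℝ} (hx0 : 0 ≤ x) (hx1 : x ≤ 1) (m : ℕ) : (1 - m * x) * (1 + x) ^ m ≤ 1 := by
  have h1 : 1 + (m : ℝ) * (-x) ≤ (1 + -x) ^ m := one_add_mul_le_pow (by linarith) m
  calc (1 - m * x) * (1 + x) ^ m ≤ (1 - x) ^ m * (1 + x) ^ m := by
        have : 1 - m * x ≤ (1 - x) ^ m := by
          have h2 : (1 + -x) = 1 - x := by ring
          rw [h2] at h1; linarith
        gcongr
    _ = (1 - x ^ 2) ^ m := by rw [← mul_pow]; ring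
    _ ≤ 1 := by
        apply pow_le_one₀
        · nlinarith
        · nlinarith [sq_nonneg x]

/-- The tail of a minimiser decays faster than every power. -/
lemma IsMin.decay {c : ℝ} {g : ℕ → ℝ} (hg : IsMin c g) (m : ℕ) :
    ∃ C : ℝ, 0 ≤ C ∧ ∀ k : ℕ, g k ≤ C / ((k : ℝ) + 1) ^ m := by
  have hη : (0:ℝ) < 1 / (m + 1) := by positivity
  set η : ℝ := 1 / (m + 1) with hηdef
  obtain ⟨T, hT⟩ := exists_good η hη
  set T' : ℝ := 2 * T * (1 + η) with hT'
  have hT'0 : 0 ≤ T' := by positivity
  have hA := hg.1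
  have h1 : ∀ n : ℕ, 1 ≤ n → ∀ N, ∑ k ∈ range N, g (n + k + 1) ≤ g n * (η * n + T') := by
    intro n hn N
    obtain ⟨j, rfl⟩ : ∃ j, n = j + 1 := ⟨n - 1, by omega⟩
    refine (hg.tail_le hT (j := j) hη.le N).trans ?_
    apply mul_le_mul_of_nonneg_left _ (hA.pos _).le
    push_cast
    rw [hT']
    nlinarith
  have hsum1 : Summable fun k => g (1 + k + 1) :=
    summable_of_sum_range_le (fun k => (hA.pos _).le) (h1 1 le_rfl)
  have hsum : Summable g := by
    rw [← summable_nat_add_iff 2]
    exact hsum1.congr fun k => by congr 1; omega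
  set Q : ℕ → ℝ := fun n => ∑' k, g (k + n) with hQ
  have hsn : ∀ n, Summable fun k => g (k + n) := fun n => (summable_nat_add_iff n).2 hsum
  have hQs : ∀ n, Q n = g n + Q (n + 1) := by
    intro n
    simp only [hQ]
    rw [(hsn n).tsum_eq_zero_add]
    congr 1
    · simp
    · exact tsum_congr fun k => by congr 1; omega
  have hQ1 : ∀ n, 1 ≤ n → Q (n + 1) ≤ g n * (η * n + T') := by
    intro n hn
    simp only [hQ]
    refine Real.tsum_le_of_sum_range_le (fun k => (hA.pos _).le) fun N => ?_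
    refine le_trans (le_of_eq ?_) (h1 n hn N)
    exact sum_congr rfl fun k _ => by congr 1; omega
  have hQpos : ∀ n, 0 ≤ Q n := fun n => tsum_nonneg fun k => (hA.pos _).le
  set B : ℝ := m * (T' + 1) + 1 with hB
  have hBpos : 1 ≤ B := by
    have : (0:ℝ) ≤ m * (T' + 1) := by positivity
    linarith
  have hmono : ∀ n, 1 ≤ n → Q (n + 1) * ((n : ℝ) + 1 + B) ^ m ≤ Q n * ((n : ℝ) + B) ^ m := by
    intro n hn
    have hnB : (0:ℝ) < n + B := by positivity
    have h3 : m * Q n ≤ (n + B) * g n := by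
      have h4 := hQ1 n hn
      have h5 := hQs n
      have h6 : Q n ≤ g n * (η * n + T' + 1) := by linarith
      have h7 : (m : ℝ) * (η * n + T' + 1) ≤ n + B := by
        have : (m : ℝ) * η ≤ 1 := by
          rw [hηdef, mul_one_div, div_le_one (by positivity)]
          linarith
        have h8 : (m : ℝ) * η * n ≤ 1 * n := by gcongr
        rw [hB]
        linarith
      calc m * Q n ≤ m * (g n * (η * n + T' + 1)) := by gcongr
        _ = g n * (m * (η * n + T' + 1)) := by ring
        _ ≤ g n * (n + B) := by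
            have := (hA.pos n).le
            gcongr
        _ = _ := by ring
    set x : ℝ := 1 / (n + B) with hx
    have hx0 : 0 ≤ x := by positivity
    have hx1 : x ≤ 1 := by
      rw [hx, div_le_one hnB]
      have : (0:ℝ) ≤ n := Nat.cast_nonneg n
      linarith
    have h9 : Q (n + 1) ≤ Q n * (1 - m * x) := by
      have h10 : Q (n + 1) = Q n - g n := by rw [hQs n]; ring
      have h11 : m * x * Q n ≤ g n := by
        have : m * x * Q n = (m * Q n) / (n + B) := by rw [hx]; ring
        rw [this, div_le_iff₀ hnB]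
        linarith
      rw [h10]; linarith
    have h12 : ((n : ℝ) + 1 + B) = (n + B) * (1 + x) := by
      rw [hx]; field_simp; ring
    calc Q (n + 1) * ((n : ℝ) + 1 + B) ^ m ≤ (Q n * (1 - m * x)) * ((n + B) * (1 + x)) ^ m := by
          rw [h12]
          have : (0:ℝ) ≤ ((n + B) * (1 + x)) ^ m := by positivity
          exact mul_le_mul_of_nonneg_right h9 this
      _ = (Q n * (n + B) ^ m) * ((1 - m * x) * (1 + x) ^ m) := by rw [mul_pow]; ring
      _ ≤ (Q n * (n + B) ^ m) * 1 := by
          have := hQpos n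
          have h13 := bern hx0 hx1 m
          gcongr
      _ = _ := by ring
  have hbound : ∀ n, 1 ≤ n → Q n * ((n : ℝ) + B) ^ m ≤ Q 1 * (1 + B) ^ m := by
    intro n hn
    induction n, hn using Nat.le_induction with
    | base => simp
    | succ n hn ih =>
      push_cast
      exact (hmono n hn).trans ih
  refine ⟨Q 1 * (1 + B) ^ m + 1, by have := hQpos 1; positivity, fun k => ?_⟩
  rw [le_div_iff₀ (by positivity)]
  rcases Nat.eq_zero_or_pos k with rfl | hk
  · rw [hA.1]
    have : 0 ≤ Q 1 * (1 + B) ^ m := by have := hQpos 1; positivity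
    simp only [Nat.cast_zero, zero_add, one_pow, mul_one]
    linarith
  · have h14 : g k ≤ Q k := by rw [hQs]; linarith [hQpos (k + 1)]
    have h15 : ((k : ℝ) + 1) ^ m ≤ (k + B) ^ m := by gcongr
    calc g k * ((k : ℝ) + 1) ^ m ≤ Q k * (k + B) ^ m := by
          have := hQpos k
          gcongr
      _ ≤ Q 1 * (1 + B) ^ m := hbound k hk
      _ ≤ _ := by linarith

/-- A minimiser does not decay exponentially. -/
lemma IsMin.not_exp {c : ℝ} {g : ℕ → ℝ} (hg : IsMin c g) (M ρ : ℝ) (hρ0 : 0 ≤ ρ) (hρ1 : ρ < 1)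
    (h : ∀ k, g k - g (k + 1) ≤ M * ρ ^ k) : False := by
  have hA := hg.1
  -- choose a gap length
  obtain ⟨G, hG⟩ : ∃ G : ℕ, ρ ^ G < 1 / 4 := exists_pow_lt_of_lt_one (by norm_num) hρ1
  obtain ⟨η, hη, hgap⟩ := exists_gap G
  -- far out, drops happen only when `1 - cos ≤ η / 4`
  obtain ⟨T, hT⟩ := exists_good (η / 16) (by positivity)
  have hdrop : ∀ᶠ j : ℕ in atTop, g (j + 1) < g j → 1 - Real.cos j ≤ η / 4 := by
    have h1 : Tendsto (fun j : ℕ => (1 + η / 16) * (2 * T) * (1 / (j : ℝ))) atTop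
        (𝓝 ((1 + η / 16) * (2 * T) * 0)) :=
      tendsto_const_nhds.mul tendsto_one_div_atTop_nhds_zero_nat
    rw [mul_zero] at h1
    have h2 := h1.eventually_lt_const (show (0:ℝ) < η / 8 by positivity)
    filter_upwards [h2, eventually_gt_atTop 0] with j hj hj0 hdj
    have h3 := hg.cst_le_of_drop hT (j := j) (by positivity) hdj
    have hj1 : (0:ℝ) < j := by exact_mod_cast hj0
    unfold cst at h3
    have h4 : (1 + η / 16) * (2 * T) ≤ η / 8 * j := by
      rw [mul_one_div, div_lt_iff₀ hj1] at hj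
      exact hj.le
    have h5 : (j : ℝ) * (1 - Real.cos j) ≤ j * (η / 4) := by nlinarith
    exact le_of_mul_le_mul_left h5 hj1
  obtain ⟨n0, hn0⟩ := eventually_atTop.1 hdrop
  -- within a window of length `G` there is at most one drop
  have hwin : ∀ k, n0 ≤ k → ∀ t, t ≤ G →
      g (k + t) = g k ∨ (g k / 2 ≤ g (k + t) ∧ ∃ i, k ≤ i ∧ i < k + t ∧ g (i + 1) < g i) := by
    intro k hk t
    induction t with
    | zero => intro _; left; rfl
    | succ t ih =>
      intro ht
      rcases eq_or_lt_of_le (hA.2 (k + t)).2 with h1 | h1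
      · rw [← add_assoc, h1]
        rcases ih (by omega) with h2 | ⟨h2, i, hi1, hi2, hi3⟩
        · exact Or.inl h2
        · exact Or.inr ⟨h2, i, hi1, by omega, hi3⟩
      · right
        rw [← add_assoc]
        rcases ih (by omega) with h2 | ⟨h2, i, hi1, hi2, hi3⟩
        · refine ⟨?_, k + t, by omega, by omega, h1⟩
          have := (hA.2 (k + t)).1
          rwa [h2] at this
        · exfalso
          have h4 := hn0 i (by omega) hi3
          have h5 := hn0 (k + t) (by omega) h1
          have h6 := one_sub_cos_sub_le ((k + t : ℕ) : ℝ) (i : ℝ)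
          have h7 := hgap (k + t - i) (by omega) (by omega)
          rw [Nat.cast_sub (by omega)] at h7
          linarith
  have hstep : ∀ k, n0 ≤ k → g k / 2 ≤ g (k + G) := by
    intro k hk
    rcases hwin k hk G le_rfl with h1 | h1
    · rw [h1]; linarith [hA.pos k]
    · exact h1.1
  have hpow : ∀ n : ℕ, g n0 * (1 / 2) ^ n ≤ g (n0 + n * G) := by
    intro n
    induction n with
    | zero => simp
    | succ n ih =>
      have h1 := hstep (n0 + n * G) (by omega)
      have h2 : n0 + (n + 1) * G = n0 + n * G + G := by ring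
      rw [h2, pow_succ]
      linarith
  -- upper bound from exponential decay
  obtain ⟨C, hC0, hC⟩ := hg.decay 1
  have hg0 : Tendsto g atTop (𝓝 0) := by
    have h1 : Tendsto (fun k : ℕ => C * (1 / ((k : ℝ) + 1))) atTop (𝓝 (C * 0)) :=
      tendsto_const_nhds.mul tendsto_one_div_add_atTop_nhds_zero_nat
    rw [mul_zero] at h1
    refine squeeze_zero (fun k => (hA.pos k).le) (fun k => ?_) h1
    have := hC k
    rw [pow_one] at this
    rwa [mul_one_div]
  have hM0 : 0 ≤ M := by
    have := h 0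
    have h2 := (hA.2 0).2
    simp only [pow_zero, mul_one] at this
    linarith
  have hup : ∀ n, g n ≤ M / (1 - ρ) * ρ ^ n := by
    intro n
    have h1 : ∀ N, g n - g (n + N) ≤ M / (1 - ρ) * ρ ^ n := by
      intro N
      have h2 : g n - g (n + N) ≤ ∑ k ∈ range N, M * ρ ^ (n + k) := by
        induction N with
        | zero => simp
        | succ N ih =>
          rw [sum_range_succ]
          have := h (n + N)
          have h3 : n + (N + 1) = n + N + 1 := rfl
          rw [h3]
          linarith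
      refine h2.trans ?_
      have h4 : ∑ k ∈ range N, M * ρ ^ (n + k) = M * ρ ^ n * ∑ k ∈ range N, ρ ^ k := by
        rw [mul_sum]
        exact sum_congr rfl fun k _ => by rw [pow_add]; ring
      have h5 : ∑ k ∈ range N, ρ ^ k ≤ 1 / (1 - ρ) := by
        rw [geom_sum_eq (by linarith : ρ ≠ 1)]
        have : (ρ ^ N - 1) / (ρ - 1) = (1 - ρ ^ N) / (1 - ρ) := by
          rw [← neg_div_neg_eq]; ring_nf
        rw [this]
        have h6 : (0:ℝ) < 1 - ρ := by linarith
        have h7 : 0 ≤ ρ ^ N := by positivity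
        gcongr
        linarith
      rw [h4]
      calc M * ρ ^ n * ∑ k ∈ range N, ρ ^ k ≤ M * ρ ^ n * (1 / (1 - ρ)) := by gcongr
        _ = _ := by ring
    have h8 : Tendsto (fun N => g n - g (n + N)) atTop (𝓝 (g n - 0)) := by
      refine tendsto_const_nhds.sub ?_
      exact hg0.comp (tendsto_add_atTop_nat n |>.congr fun N => by ring)
    rw [sub_zero] at h8
    exact le_of_tendsto' h8 h1
  have hfin : ∀ n : ℕ, g n0 ≤ M / (1 - ρ) * (1 / 2) ^ n := by
    intro n
    have h1 := (hpow n).trans (hup (n0 + n * G))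
    have h2 : ρ ^ (n0 + n * G) ≤ (1 / 4) ^ n := by
      rw [pow_add, mul_comm n G, pow_mul]
      calc ρ ^ n0 * (ρ ^ G) ^ n ≤ 1 * (1 / 4) ^ n := by
            have := pow_le_one₀ hρ0 hρ1.le (n := n0)
            gcongr
        _ = _ := one_mul _
    have h3 : (0:ℝ) < (1 / 2) ^ n := by positivity
    have h4 : 0 ≤ M / (1 - ρ) := div_nonneg hM0 (by linarith)
    have h5 : g n0 * (1 / 2) ^ n ≤ (M / (1 - ρ) * (1 / 2) ^ n) * (1 / 2) ^ n := by
      calc g n0 * (1 / 2) ^ n ≤ M / (1 - ρ) * ρ ^ (n0 + n * G) := h1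
        _ ≤ M / (1 - ρ) * (1 / 4) ^ n := by gcongr
        _ = _ := by rw [mul_assoc, ← mul_pow]; norm_num
    exact le_of_mul_le_mul_right h5 h3
  have hlim : Tendsto (fun n : ℕ => M / (1 - ρ) * (1 / 2 : ℝ) ^ n) atTop (𝓝 (M / (1 - ρ) * 0)) :=
    tendsto_const_nhds.mul (tendsto_pow_atTop_nhds_zero_of_lt_one (by norm_num) (by norm_num))
  rw [mul_zero] at hlim
  have := ge_of_tendsto' hlim hfin
  linarith [hA.pos n0]

end Pool.Agent.H66.L1
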