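import Pool.Agent.H66.L1.Base

open Filter Topology Finset Real

namespace Pool.Agent.H66.L1

section Good

variable (η : ℝ) (j : ℕ)

open Classical in
/-- The tail function of the policy: after time `j`, stop with probability one half at every
good time. -/
noncomputable def pol : ℕ → ℝ
  | 0 => 1
  | k + 1 => if j < k ∧ 1 - Real.cos k ≤ η then pol k / 2 else pol k

lemma pol_zero : pol η j 0 = 1 := rfl

open Classical in
lemma pol_succ (k : ℕ) :
    pol η j (k + 1) = if j < k ∧ 1 - Real.cos k ≤ η then pol η j k / 2 else pol η j k := by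
  rw [pol]

lemma pol_pos (k : ℕ) : 0 < pol η j k := by
  induction k with
  | zero => rw [pol_zero]; exact one_pos
  | succ k ih =>
    rw [pol_succ]
    split_ifs <;> linarith

lemma pol_adm : Adm (pol η j) := by
  refine ⟨pol_zero η j, fun k => ?_⟩
  have := pol_pos η j k
  rw [pol_succ]
  split_ifs
  · exact ⟨le_rfl, by linarith⟩
  · exact ⟨by linarith, le_rfl⟩

lemma pol_eq_one {k : ℕ} (hk : k ≤ j + 1) : pol η j k = 1 := by
  induction k with
  | zero => rfl
  | succ k ih =>
    rw [pol_succ, if_neg (by omega), ih (by omega)]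

lemma cst_mul_drop_le (k : ℕ) :
    cst k * (pol η j k - pol η j (k + 1)) ≤ (1 + η) * (k * (pol η j k - pol η j (k + 1))) := by
  by_cases h : j < k ∧ 1 - Real.cos k ≤ η
  · have h1 : cst k ≤ (1 + η) * k := by
      unfold cst
      have := h.2
      nlinarith [Nat.cast_nonneg (α := ℝ) k]
    have h2 : 0 ≤ pol η j k - pol η j (k + 1) := sub_nonneg.2 ((pol_adm η j).2 k).2
    calc cst k * (pol η j k - pol η j (k + 1)) ≤ (1 + η) * k * (pol η j k - pol η j (k + 1)) := by
          gcongr
      _ = _ := by ring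
  · rw [pol_succ, if_neg h]
    simp

variable {η} {j} {T : ℕ} (hT : ∀ j : ℕ, ∃ i : ℕ, j < i ∧ i ≤ j + T ∧ 1 - Real.cos i ≤ η)

include hT

lemma pol_halving {k : ℕ} (hk : j < k) : pol η j (k + T) ≤ pol η j k / 2 := by
  obtain ⟨i, h1, h2, h3⟩ := hT (k - 1)
  have h4 : pol η j (i + 1) = pol η j i / 2 := by
    rw [pol_succ, if_pos ⟨by omega, h3⟩]
  have h5 : pol η j (k + T) ≤ pol η j (i + 1) := (pol_adm η j).antitone (by omega)
  have h6 : pol η j i ≤ pol η j k := (pol_adm η j).antitone (by omega)
  linarith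

lemma pol_block (n : ℕ) : pol η j (j + 1 + n * T) ≤ (1 / 2) ^ n := by
  induction n with
  | zero => simpa using (pol_adm η j).le_one _
  | succ n ih =>
    have := pol_halving hT (j := j) (k := j + 1 + n * T) (by omega)
    have h2 : j + 1 + (n + 1) * T = j + 1 + n * T + T := by ring
    rw [h2, pow_succ]
    linarith

lemma sum_pol_block (n : ℕ) :
    ∑ l ∈ range (n * T), pol η j (j + 1 + l) ≤ 2 * T * (1 - (1 / 2) ^ n) := by
  induction n with
  | zero => simp
  | succ n ih =>
    rw [add_mul, one_mul, sum_range_add]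
    have h1 : ∑ l ∈ range T, pol η j (j + 1 + (n * T + l)) ≤ T * (1 / 2) ^ n := by
      calc ∑ l ∈ range T, pol η j (j + 1 + (n * T + l)) ≤ ∑ l ∈ range T, (1 / 2 : ℝ) ^ n := by
            refine sum_le_sum fun l _ => ?_
            exact ((pol_adm η j).antitone (by omega)).trans (pol_block hT n)
        _ = T * (1 / 2) ^ n := by simp
    calc _ ≤ 2 * T * (1 - (1 / 2 : ℝ) ^ n) + T * (1 / 2) ^ n := add_le_add ih h1
      _ = _ := by rw [pow_succ]; ring

lemma sum_pol_le (N : ℕ) : ∑ l ∈ range N, pol η j (l + 1) ≤ j + 2 * T := by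
  have hT1 : 1 ≤ T := by
    obtain ⟨i, h1, h2, -⟩ := hT 0
    omega
  have h1 : ∑ l ∈ range N, pol η j (l + 1) ≤ ∑ l ∈ range (j + N * T), pol η j (l + 1) := by
    apply sum_le_sum_of_subset_of_nonneg
    · apply range_mono
      have : N * 1 ≤ N * T := Nat.mul_le_mul_left _ hT1
      omega
    · exact fun l _ _ => (pol_pos η j _).le
  rw [sum_range_add] at h1
  have h2 : ∑ l ∈ range j, pol η j (l + 1) ≤ j := by
    calc ∑ l ∈ range j, pol η j (l + 1) ≤ ∑ l ∈ range j, (1:ℝ) :=
          sum_le_sum fun l _ => (pol_adm η j).le_one _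
      _ = j := by simp
  have h3 : ∑ l ∈ range (N * T), pol η j (j + l + 1) ≤ 2 * T := by
    have h4 := sum_pol_block hT (j := j) N
    have h5 : (0:ℝ) ≤ 2 * T * (1 / 2) ^ N := by positivity
    calc ∑ l ∈ range (N * T), pol η j (j + l + 1) = ∑ l ∈ range (N * T), pol η j (j + 1 + l) := by
          refine sum_congr rfl fun l _ => ?_
          congr 1; omega
      _ ≤ 2 * T := by linarith
  linarith

lemma pc_pol_le (hη : 0 ≤ η) (N : ℕ) : pc (pol η j) N ≤ (1 + η) * (j + 2 * T) := by
  unfold pc
  calc ∑ k ∈ range N, cst k * (pol η j k - pol η j (k + 1)) + N * pol η j N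
      ≤ ∑ k ∈ range N, (1 + η) * (k * (pol η j k - pol η j (k + 1))) + (1 + η) * (N * pol η j N) := by
        refine add_le_add (sum_le_sum fun k _ => cst_mul_drop_le η j k) ?_
        have : (0:ℝ) ≤ N * pol η j N := mul_nonneg (Nat.cast_nonneg _) (pol_pos η j N).le
        nlinarith
    _ = (1 + η) * (∑ k ∈ range N, pol η j (k + 1)) := by
        rw [← mul_sum, ← mul_add, sum_id_mul]
    _ ≤ _ := by
        have := sum_pol_le hT (j := j) N
        gcongr

/-- First exchange: a minimiser stops only at times `j` with small cost. -/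
lemma IsMin.cst_le_of_drop {m : ℝ} {g : ℕ → ℝ} (hg : IsMin m g) (hη : 0 ≤ η)
    (hj : g (j + 1) < g j) : cst j ≤ (1 + η) * (j + 2 * T) := by
  obtain ⟨hA, hle, hmin⟩ := hg
  set f := g j - g (j + 1) with hf
  have hf0 : 0 < f := sub_pos.2 hj
  set g' : ℕ → ℝ := fun k => if k ≤ j then g k else g k + f * pol η j k with hg'
  have h1 : ∀ k, k ≤ j → g' k = g k := fun k hk => by simp [hg', hk]
  have h2 : ∀ k, j < k → g' k = g k + f * pol η j k := fun k hk => by
    simp only [hg']; rw [if_neg (by omega)]
  have h3 : g' (j + 1) = g j := by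
    rw [h2 _ (by omega), pol_eq_one η j le_rfl, hf]; ring
  have hA' : Adm g' := by
    refine ⟨by rw [h1 0 (Nat.zero_le _)]; exact hA.1, fun k => ?_⟩
    rcases lt_trichotomy k j with hk | hk | hk
    · rw [h1 k hk.le, h1 (k + 1) (by omega)]
      exact hA.2 k
    · subst hk
      rw [h3, h1 k le_rfl]
      have := hA.pos k
      exact ⟨by linarith, le_rfl⟩
    · rw [h2 k hk, h2 (k + 1) (by omega)]
      have h4 := hA.2 k
      have h5 := (pol_adm η j).2 k
      constructor <;> nlinarith
  have key : ∀ N, pc g' (j + 1 + N) = pc g (j + 1 + N) - cst j * f + f * pc (pol η j) (j + 1 + N) := by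
    intro N
    induction N with
    | zero =>
      unfold pc
      simp only [add_zero]
      rw [sum_range_succ, sum_range_succ, sum_range_succ]
      have h4 : ∑ k ∈ range j, cst k * (g' k - g' (k + 1)) = ∑ k ∈ range j, cst k * (g k - g (k + 1)) := by
        refine sum_congr rfl fun k hk => ?_
        rw [mem_range] at hk
        rw [h1 k hk.le, h1 (k + 1) (by omega)]
      have h5 : ∑ k ∈ range j, cst k * (pol η j k - pol η j (k + 1)) = 0 := by
        refine sum_eq_zero fun k hk => ?_
        rw [mem_range] at hk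
        rw [pol_eq_one η j (by omega), pol_eq_one η j (by omega)]
        ring
      rw [h4, h5, h3, h1 j le_rfl, pol_eq_one η j (by omega), pol_eq_one η j le_rfl, hf]
      push_cast
      ring
    | succ N ih =>
      rw [← add_assoc, pc_succ, pc_succ, pc_succ, ih, h2 (j + 1 + N) (by omega),
        h2 (j + 1 + N + 1) (by omega)]
      ring
  have h6 : ∀ N, pc g' N ≤ m - cst j * f + f * ((1 + η) * (j + 2 * T)) := by
    intro N
    have h7 : pc g' N ≤ pc g' (j + 1 + N) := hA'.pc_mono (by omega)
    rw [key] at h7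
    have h8 := hle (j + 1 + N)
    have h9 := mul_le_mul_of_nonneg_left (pc_pol_le hT (j := j) hη (j + 1 + N)) hf0.le
    linarith
  have h10 := hmin g' _ hA' h6
  have h11 : f * cst j ≤ f * ((1 + η) * (j + 2 * T)) := by linarith
  exact le_of_mul_le_mul_left h11 hf0

/-- Second exchange: the tail cost of a minimiser. -/
lemma IsMin.tail_le {m : ℝ} {g : ℕ → ℝ} (hg : IsMin m g) (hη : 0 ≤ η) (N : ℕ) :
    ∑ k ∈ range N, g (j + 1 + k + 1) ≤ g (j + 1) * ((1 + η) * (j + 2 * T) - (j + 1)) := by
  obtain ⟨hA, hle, hmin⟩ := hg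
  set g' : ℕ → ℝ := fun k => if k ≤ j then g k else g (j + 1) * pol η j k with hg'
  have h1 : ∀ k, k ≤ j → g' k = g k := fun k hk => by simp [hg', hk]
  have h2 : ∀ k, j < k → g' k = g (j + 1) * pol η j k := fun k hk => by
    simp only [hg']; rw [if_neg (by omega)]
  have h3 : g' (j + 1) = g (j + 1) := by
    rw [h2 _ (by omega), pol_eq_one η j le_rfl]; ring
  have hp := hA.pos (j + 1)
  have hA' : Adm g' := by
    refine ⟨by rw [h1 0 (Nat.zero_le _)]; exact hA.1, fun k => ?_⟩
    rcases lt_trichotomy k j with hk | hk | hk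
    · rw [h1 k hk.le, h1 (k + 1) (by omega)]
      exact hA.2 k
    · subst hk
      rw [h3, h1 k le_rfl]
      exact hA.2 k
    · rw [h2 k hk, h2 (k + 1) (by omega)]
      have h5 := (pol_adm η j).2 k
      constructor <;> nlinarith
  set S := ∑ k ∈ range (j + 1), cst k * (g k - g (k + 1)) with hS
  have key : ∀ N, pc g' (j + 1 + N) = S + g (j + 1) * pc (pol η j) (j + 1 + N) := by
    intro N
    induction N with
    | zero =>
      unfold pc
      simp only [add_zero]
      have h4 : ∑ k ∈ range (j + 1), cst k * (g' k - g' (k + 1)) = S := by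
        rw [hS]
        refine sum_congr rfl fun k hk => ?_
        rw [mem_range] at hk
        rcases Nat.lt_or_ge k j with h | h
        · rw [h1 k h.le, h1 (k + 1) (by omega)]
        · have : k = j := by omega
          subst this
          rw [h3, h1 k le_rfl]
      have h5 : ∑ k ∈ range (j + 1), cst k * (pol η j k - pol η j (k + 1)) = 0 := by
        refine sum_eq_zero fun k hk => ?_
        rw [mem_range] at hk
        rw [pol_eq_one η j (by omega), pol_eq_one η j (by omega)]
        ring
      rw [h4, h5, h3, pol_eq_one η j le_rfl]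
      ring
    | succ N ih =>
      rw [← add_assoc, pc_succ, pc_succ, ih, h2 (j + 1 + N) (by omega),
        h2 (j + 1 + N + 1) (by omega)]
      ring
  have h6 : ∀ N, pc g' N ≤ S + g (j + 1) * ((1 + η) * (j + 2 * T)) := by
    intro N
    have h7 : pc g' N ≤ pc g' (j + 1 + N) := hA'.pc_mono (by omega)
    rw [key] at h7
    have h9 := mul_le_mul_of_nonneg_left (pc_pol_le hT (j := j) hη (j + 1 + N)) hp.le
    linarith
  have h10 := hmin g' _ hA' h6
  have h11 : ∀ N, pc g (j + 1 + N) = S +
      (∑ k ∈ range N, cst (j + 1 + k) * (g (j + 1 + k) - g (j + 1 + k + 1)) + (j + 1 + N) * g (j + 1 + N)) := by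
    intro N
    unfold pc
    rw [sum_range_add, hS]
    push_cast
    ring
  have h12 : ∀ N, ∑ k ∈ range N, g (j + 1 + k + 1) + (j + 1) * g (j + 1) ≤
      ∑ k ∈ range N, cst (j + 1 + k) * (g (j + 1 + k) - g (j + 1 + k + 1)) + (j + 1 + N) * g (j + 1 + N) := by
    intro N
    induction N with
    | zero => simp
    | succ N ih =>
      rw [sum_range_succ, sum_range_succ]
      have h13 := le_cst (j + 1 + N)
      have h14 := (hA.2 (j + 1 + N)).2
      have h15 := mul_le_mul_of_nonneg_right h13 (sub_nonneg.2 h14)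
      have h16 : g (j + 1 + (N + 1)) = g (j + 1 + N + 1) := rfl
      rw [h16]
      push_cast at h15 ⊢
      linarith
  have h17 := hle (j + 1 + N)
  rw [h11] at h17
  have h18 := h12 N
  linarith

end Good

end Pool.Agent.H66.L1
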