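import Pool.Agent.H66.L1.Series

open Filter Topology Finset Real PowerSeries

namespace Pool.Agent.H66.L1

/-- The polynomial `(1 - 2 cos 1 z + z²)² (1 - z)²`. -/
noncomputable def u0 : Polynomial ℝ := D (Real.cos 1) * (D (Real.cos 1) * D 1)

/-- The polynomial `(2 - z) (1 - z) (1 - 2 cos 1 z + z²)²`. -/
noncomputable def u2 : Polynomial ℝ :=
  (2 - Polynomial.X) * (1 - Polynomial.X) * (D (Real.cos 1) * D (Real.cos 1))

lemma eval_u0 : u0.eval 1 = 0 := by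
  simp only [u0, D, Polynomial.eval_mul, Polynomial.eval_add, Polynomial.eval_sub,
    Polynomial.eval_one, Polynomial.eval_C, Polynomial.eval_X, Polynomial.eval_pow]
  ring

lemma eval_u2 : u2.eval 1 = 0 := by
  simp [u2]

lemma u2_rel : (1 - Polynomial.X) * u2 = (2 - Polynomial.X) * u0 := by
  have h : (D 1 : Polynomial ℝ) = (1 - Polynomial.X) * (1 - Polynomial.X) := by
    unfold D
    have : Polynomial.C (2 * (1:ℝ)) = 2 := by rw [mul_one]; rfl
    rw [this]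
    ring
  unfold u0 u2
  rw [h]
  ring

/-! ### Boundary estimate -/

lemma exists_small {e : ℕ → ℝ} (he : Summable e) {ε : ℝ} (hε : 0 < ε)
    (N0 : ℕ) : ∃ N, N0 ≤ N ∧ ((N : ℝ) + 1) * e N ≤ ε := by
  by_contra hcon
  push Not at hcon
  have h1 : Summable fun k : ℕ => ε * (1 / (((k + N0 : ℕ) : ℝ) + 1)) := by
    refine Summable.of_nonneg_of_le (fun k => by positivity) (fun k => ?_)
      ((summable_nat_add_iff N0).2 he)
    have h2 := hcon (k + N0) (by omega)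
    rw [mul_one_div, div_le_iff₀ (by positivity)]
    linarith
  have h2 : Summable fun k : ℕ => 1 / (((k + N0 : ℕ) : ℝ) + 1) := by
    have := h1.mul_left (1 / ε)
    refine this.congr fun k => ?_
    field_simp
  have h3 : Summable fun k : ℕ => 1 / (((k + (N0 + 1) : ℕ)) : ℝ) := by
    refine h2.congr fun k => ?_
    push_cast
    ring
  have h4 := (summable_nat_add_iff (f := fun n : ℕ => 1 / (n : ℝ)) (N0 + 1)).1 h3
  exact Real.not_summable_one_div_natCast h4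

lemma cst_D (k : ℕ) : cst k - 2 * Real.cos 1 * cst (k + 1) + cst (k + 2) =
    4 * (1 - Real.cos 1) * (k + 1) + 2 * Real.sin 1 * Real.sin (k + 1) := by
  unfold cst
  push_cast
  have h1 : Real.cos ((k : ℝ) + 2) = Real.cos (k + 1) * Real.cos 1 - Real.sin (k + 1) * Real.sin 1 := by
    rw [← Real.cos_add]; ring_nf
  have h2 : Real.cos (k : ℝ) = Real.cos (k + 1) * Real.cos 1 + Real.sin (k + 1) * Real.sin 1 := by
    rw [← Real.cos_sub]; ring_nf
  rw [h1, h2]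
  ring

/-- second iterate -/
lemma cst_DD (k : ℕ) :
    (4 * (1 - Real.cos 1) * ((k : ℝ) + 1) + 2 * Real.sin 1 * Real.sin (k + 1)) -
      2 * Real.cos 1 * (4 * (1 - Real.cos 1) * (((k + 1 : ℕ) : ℝ) + 1) +
        2 * Real.sin 1 * Real.sin (((k + 1 : ℕ) : ℝ) + 1)) +
      (4 * (1 - Real.cos 1) * (((k + 2 : ℕ) : ℝ) + 1) +
        2 * Real.sin 1 * Real.sin (((k + 2 : ℕ) : ℝ) + 1)) =
    8 * (1 - Real.cos 1) ^ 2 * ((k : ℝ) + 2) := by
  push_cast
  have h1 : Real.sin ((k : ℝ) + 2 + 1) = Real.sin (k + 1 + 1) * Real.cos 1 + Real.cos (k + 1 + 1) * Real.sin 1 := by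
    rw [← Real.sin_add]; ring_nf
  have h2 : Real.sin ((k : ℝ) + 1) = Real.sin (k + 1 + 1) * Real.cos 1 - Real.cos (k + 1 + 1) * Real.sin 1 := by
    rw [← Real.sin_sub]; ring_nf
  rw [h1, h2]
  ring

lemma abs_bd {γ K x y A B : ℝ} (hγ : |γ| ≤ 1) (hK : 0 ≤ K) (hx : |x| ≤ K) (hy : |y| ≤ K) :
    |(x - 2 * γ * y) * A + y * B| ≤ 3 * K * (|A| + |B|) := by
  have h1 : |x - 2 * γ * y| ≤ 3 * K := by
    calc |x - 2 * γ * y| ≤ |x| + |2 * γ * y| := abs_sub _ _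
      _ = |x| + 2 * |γ| * |y| := by rw [abs_mul, abs_mul, abs_of_pos (by norm_num : (0:ℝ) < 2)]
      _ ≤ K + 2 * 1 * K := by gcongr
      _ = 3 * K := by ring
  calc |(x - 2 * γ * y) * A + y * B| ≤ |(x - 2 * γ * y) * A| + |y * B| := abs_add_le _ _
    _ = |x - 2 * γ * y| * |A| + |y| * |B| := by rw [abs_mul, abs_mul]
    _ ≤ 3 * K * |A| + 3 * K * |B| := by
        have : |y| ≤ 3 * K := by linarith
        gcongr
    _ = _ := by ring

lemma exists_boundary {d : ℝ⟦X⟧} (hd : SL1 d) {ε : ℝ} (hε : 0 < ε) (N0 : ℕ) :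
    ∃ N, N0 ≤ N ∧ |∑ k ∈ range N, cst k * coeff k ((u0 : ℝ⟦X⟧) * d)| ≤ ε := by
  set γ := Real.cos 1 with hγ
  have hγ1 : |γ| ≤ 1 := Real.abs_cos_le_one 1
  set a2 : ℝ⟦X⟧ := (D 1 : ℝ⟦X⟧) * d with ha2
  set a1 : ℝ⟦X⟧ := (D γ : ℝ⟦X⟧) * a2 with ha1
  have hs2 : SL1 a2 := (SL1_poly _).mul hd
  have hs1 : SL1 a1 := (SL1_poly _).mul hs2
  have hu : (u0 : ℝ⟦X⟧) * d = (D γ : ℝ⟦X⟧) * a1 := by
    rw [ha1, ha2, u0]
    push_cast
    ring
  set e : ℕ → ℝ := fun N => (|coeff (N + 4) a1| + |coeff (N + 5) a1|) +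
    (|coeff (N + 2) a2| + |coeff (N + 3) a2|) + (|coeff N d| + |coeff (N + 1) d|) with he
  have hse : Summable e := by
    have h1 : ∀ (a : ℝ⟦X⟧) (n : ℕ), SL1 a → Summable fun k => |coeff (k + n) a| :=
      fun a n ha => (summable_nat_add_iff n).2 ha
    exact (((h1 a1 4 hs1).add (h1 a1 5 hs1)).add ((h1 a2 2 hs2).add (h1 a2 3 hs2))).add
      ((h1 d 0 hd).add (h1 d 1 hd))
  obtain ⟨N, hN0, hN⟩ := exists_small hse (ε := ε / 1000) (by positivity) N0
  refine ⟨N + 6, by omega, ?_⟩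
  set c1 : ℕ → ℝ := fun k => 4 * (1 - γ) * ((k : ℝ) + 1) + 2 * Real.sin 1 * Real.sin (k + 1) with hc1
  set c2 : ℕ → ℝ := fun k => 8 * (1 - γ) ^ 2 * ((k : ℝ) + 2) with hc2
  have hb : |γ| ≤ 1 := hγ1
  have hγ2 := abs_le.1 hγ1
  have hn0 : (0:ℝ) ≤ N := Nat.cast_nonneg N
  have e1 : ∑ k ∈ range (N + 6), cst k * coeff k ((u0 : ℝ⟦X⟧) * d) =
      ((cst (N + 4) - 2 * γ * cst (N + 5)) * coeff (N + 4) a1 + cst (N + 5) * coeff (N + 5) a1) +
      ((c1 (N + 2) - 2 * γ * c1 (N + 3)) * coeff (N + 2) a2 + c1 (N + 3) * coeff (N + 3) a2) +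
      ((c2 N - 2 * 1 * c2 (N + 1)) * coeff N d + c2 (N + 1) * coeff (N + 1) d) := by
    rw [hu, sum_mul_D γ cst a1 (N + 4)]
    have e2 : ∑ k ∈ range (N + 4), (cst k - 2 * γ * cst (k + 1) + cst (k + 2)) * coeff k a1 =
        ∑ k ∈ range (N + 4), c1 k * coeff k ((D γ : ℝ⟦X⟧) * a2) := by
      refine sum_congr rfl fun k _ => ?_
      rw [hγ, cst_D]
    rw [e2, sum_mul_D γ c1 a2 (N + 2)]
    have e3 : ∑ k ∈ range (N + 2), (c1 k - 2 * γ * c1 (k + 1) + c1 (k + 2)) * coeff k a2 =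
        ∑ k ∈ range (N + 2), c2 k * coeff k ((D 1 : ℝ⟦X⟧) * d) := by
      refine sum_congr rfl fun k _ => ?_
      simp only [hc1, hc2]
      rw [hγ, cst_DD]
    rw [e3, sum_mul_D 1 c2 d N]
    have e4 : ∑ k ∈ range N, (c2 k - 2 * 1 * c2 (k + 1) + c2 (k + 2)) * coeff k d = 0 := by
      refine sum_eq_zero fun k _ => ?_
      simp only [hc2]
      push_cast
      ring
    rw [e4]
    ring
  rw [e1]
  have hK : (0:ℝ) ≤ 200 * ((N : ℝ) + 1) := by positivity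
  have hcst : ∀ k : ℕ, k ≤ N + 5 → |cst k| ≤ 200 * ((N : ℝ) + 1) := by
    intro k hk
    rw [abs_of_nonneg (cst_nonneg k)]
    have h1 := cst_le k
    have h2 : (k : ℝ) ≤ N + 5 := by exact_mod_cast hk
    linarith
  have hc1b : ∀ k : ℕ, k ≤ N + 5 → |c1 k| ≤ 200 * ((N : ℝ) + 1) := by
    intro k hk
    have h2 : (k : ℝ) ≤ N + 5 := by exact_mod_cast hk
    have h3 : |2 * Real.sin 1 * Real.sin ((k : ℝ) + 1)| ≤ 2 := by
      rw [abs_mul, abs_mul, abs_of_pos (by norm_num : (0:ℝ) < 2)]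
      have h4 := Real.abs_sin_le_one 1
      have h5 := Real.abs_sin_le_one ((k : ℝ) + 1)
      calc 2 * |Real.sin 1| * |Real.sin ((k : ℝ) + 1)| ≤ 2 * 1 * 1 := by gcongr
        _ = 2 := by norm_num
    have h6 : |4 * (1 - γ) * ((k : ℝ) + 1)| ≤ 8 * ((k : ℝ) + 1) := by
      rw [abs_mul, abs_of_nonneg (by positivity : (0:ℝ) ≤ (k : ℝ) + 1)]
      have : |4 * (1 - γ)| ≤ 8 := by
        rw [abs_le]; constructor <;> linarith
      gcongr
    calc |c1 k| ≤ |4 * (1 - γ) * ((k : ℝ) + 1)| + |2 * Real.sin 1 * Real.sin ((k : ℝ) + 1)| :=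
          abs_add_le _ _
      _ ≤ 8 * ((k : ℝ) + 1) + 2 := add_le_add h6 h3
      _ ≤ _ := by linarith
  have hc2b : ∀ k : ℕ, k ≤ N + 2 → |c2 k| ≤ 200 * ((N : ℝ) + 1) := by
    intro k hk
    have h2 : (k : ℝ) ≤ N + 2 := by exact_mod_cast hk
    have h3 : (1 - γ) ^ 2 ≤ 4 := by nlinarith
    simp only [hc2]
    rw [abs_of_nonneg (by positivity)]
    calc 8 * (1 - γ) ^ 2 * ((k : ℝ) + 2) ≤ 8 * 4 * ((N : ℝ) + 2 + 2) := by gcongr
      _ ≤ _ := by linarith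
  have t1 := abs_bd (A := coeff (N + 4) a1) (B := coeff (N + 5) a1) hγ1 hK
    (hcst (N + 4) (by omega)) (hcst (N + 5) le_rfl)
  have t2 := abs_bd (A := coeff (N + 2) a2) (B := coeff (N + 3) a2) hγ1 hK
    (hc1b (N + 2) (by omega)) (hc1b (N + 3) (by omega))
  have t3 := abs_bd (γ := 1) (A := coeff N d) (B := coeff (N + 1) d) (by norm_num) hK
    (hc2b N (by omega)) (hc2b (N + 1) (by omega))
  calc _ ≤ 3 * (200 * ((N : ℝ) + 1)) * (|coeff (N + 4) a1| + |coeff (N + 5) a1|) +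
        3 * (200 * ((N : ℝ) + 1)) * (|coeff (N + 2) a2| + |coeff (N + 3) a2|) +
        3 * (200 * ((N : ℝ) + 1)) * (|coeff N d| + |coeff (N + 1) d|) :=
        (abs_add_three _ _ _).trans (add_le_add (add_le_add t1 t2) t3)
    _ = 600 * (((N : ℝ) + 1) * e N) := by simp only [he]; ring
    _ ≤ 600 * (ε / 1000) := by gcongr
    _ ≤ ε := by linarith

/-! ### Division of a minimiser -/

lemma sin_one_pos : 0 < Real.sin 1 :=
  Real.sin_pos_of_pos_of_lt_pi one_pos (by linarith [Real.pi_gt_three])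

lemma abs_sin_nat_le (n : ℕ) : |Real.sin n| ≤ n * Real.sin 1 := by
  induction n with
  | zero => simp
  | succ n ih =>
    push_cast
    rw [Real.sin_add]
    have h1 := Real.abs_cos_le_one 1
    have h2 := Real.abs_cos_le_one (n : ℝ)
    have h3 := sin_one_pos
    calc |Real.sin n * Real.cos 1 + Real.cos n * Real.sin 1|
        ≤ |Real.sin n * Real.cos 1| + |Real.cos n * Real.sin 1| := abs_add_le _ _
      _ = |Real.sin n| * |Real.cos 1| + |Real.cos n| * Real.sin 1 := by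
          rw [abs_mul, abs_mul, abs_of_pos h3]
      _ ≤ (n * Real.sin 1) * 1 + 1 * Real.sin 1 := by gcongr
      _ = _ := by ring

lemma exists_quotient (f : ℕ → ℝ) (C : ℝ) (hC : 0 ≤ C) (hf : ∀ k, |f k| ≤ C / ((k : ℝ) + 1) ^ 8) :
    ∃ (h : Polynomial ℝ) (p : ℝ⟦X⟧), SL1 p ∧ PowerSeries.mk f = (h : ℝ⟦X⟧) - (u0 : ℝ⟦X⟧) * p := by
  have hs := sin_one_pos
  set γ := Real.cos 1 with hγ
  set S : ℕ → ℝ := fun n => Real.sin n / Real.sin 1 with hS
  have hS0 : S 0 = 0 := by simp [hS]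
  have hS1 : S 1 = 1 := by simp [hS, hs.ne']
  have hSr : ∀ n, S (n + 2) = 2 * γ * S (n + 1) - S n := by
    intro n
    simp only [hS]
    have h1 : Real.sin ((n : ℝ) + 2) = 2 * γ * Real.sin (n + 1) - Real.sin n := by
      have h2 : Real.sin ((n : ℝ) + 2) = Real.sin (n + 1) * Real.cos 1 + Real.cos (n + 1) * Real.sin 1 := by
        rw [← Real.sin_add]; ring_nf
      have h3 : Real.sin (n : ℝ) = Real.sin (n + 1) * Real.cos 1 - Real.cos (n + 1) * Real.sin 1 := by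
        rw [← Real.sin_sub]; ring_nf
      rw [h2, h3]; ring
    push_cast
    rw [h1]
    ring
  have hSb : ∀ n, |S n| ≤ n := by
    intro n
    simp only [hS]
    rw [abs_div, abs_of_pos hs, div_le_iff₀ hs]
    exact abs_sin_nat_le n
  obtain ⟨r1, b1, h1, hb1⟩ := exists_div γ S hS0 hS1 hSr hSb 5 (PowerSeries.mk f) C hC
    (by intro k; rw [coeff_mk]; exact hf k)
  obtain ⟨r2, b2, h2, hb2⟩ := exists_div γ S hS0 hS1 hSr hSb 3 b1 C hC hb1
  obtain ⟨r3, b3, h3, hb3⟩ := exists_div 1 (fun n => (n : ℝ)) (by simp) (by simp)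
    (by intro n; push_cast; ring) (by intro n; simp) 1 b2 C hC hb2
  refine ⟨r1 + D γ * (r2 + D γ * r3), -b3, ?_, ?_⟩
  · apply SL1.neg
    unfold SL1
    have h4 : Summable fun k : ℕ => C * (1 / ((k : ℝ) + 1) ^ 2) := by
      apply Summable.mul_left
      have := (summable_nat_add_iff 1).2 (Real.summable_one_div_nat_pow.2 (by norm_num : 1 < 2))
      refine this.congr fun k => by push_cast; rfl
    refine Summable.of_nonneg_of_le (fun k => abs_nonneg _) (fun k => ?_) h4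
    have := hb3 k
    rw [mul_one_div]
    exact this
  · rw [h1, h2, h3]
    unfold u0
    push_cast
    ring

end Pool.Agent.H66.L1
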