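import Pool.Agent.H66.L1.Decay

open Filter Topology Finset Real PowerSeries

namespace Pool.Agent.H66.L1

/-- Absolutely summable coefficients. -/
def SL1 (a : ℝ⟦X⟧) : Prop := Summable fun k => |coeff k a|

lemma SL1.summable {a : ℝ⟦X⟧} (h : SL1 a) : Summable fun k => coeff k a :=
  summable_abs_iff.1 h

lemma SL1.mul {a b : ℝ⟦X⟧} (ha : SL1 a) (hb : SL1 b) : SL1 (a * b) := by
  have := summable_norm_sum_mul_antidiagonal_of_summable_norm (f := fun k => coeff k a)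
    (g := fun k => coeff k b) (by simpa [SL1] using ha) (by simpa [SL1] using hb)
  unfold SL1
  simpa [PowerSeries.coeff_mul] using this

lemma tsum_mul {a b : ℝ⟦X⟧} (ha : SL1 a) (hb : SL1 b) :
    ∑' k, coeff k (a * b) = (∑' k, coeff k a) * ∑' k, coeff k b := by
  have := tsum_mul_tsum_eq_tsum_sum_antidiagonal_of_summable_norm (f := fun k => coeff k a)
    (g := fun k => coeff k b) (by simpa [SL1] using ha) (by simpa [SL1] using hb)
  rw [this]
  exact tsum_congr fun k => PowerSeries.coeff_mul k a b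

lemma SL1.add {a b : ℝ⟦X⟧} (ha : SL1 a) (hb : SL1 b) : SL1 (a + b) := by
  unfold SL1
  refine Summable.of_nonneg_of_le (fun k => abs_nonneg _) (fun k => ?_) (Summable.add ha hb)
  rw [map_add]
  exact abs_add_le _ _

lemma SL1.neg {a : ℝ⟦X⟧} (ha : SL1 a) : SL1 (-a) := by
  unfold SL1 at ha ⊢
  simpa using ha

lemma SL1.sub {a b : ℝ⟦X⟧} (ha : SL1 a) (hb : SL1 b) : SL1 (a - b) := by
  rw [sub_eq_add_neg]
  exact ha.add hb.neg

lemma hasSum_poly (P : Polynomial ℝ) : HasSum (fun k => coeff k (P : ℝ⟦X⟧)) (P.eval 1) := by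
  have h : ∀ k, k ∉ range (P.natDegree + 1) → coeff k (P : ℝ⟦X⟧) = 0 := by
    intro k hk
    rw [mem_range] at hk
    rw [Polynomial.coeff_coe]
    exact Polynomial.coeff_eq_zero_of_natDegree_lt (by omega)
  have h2 : HasSum (fun k => coeff k (P : ℝ⟦X⟧))
      (∑ k ∈ range (P.natDegree + 1), coeff k (P : ℝ⟦X⟧)) := hasSum_sum_of_ne_finset_zero h
  rw [Polynomial.eval_eq_sum_range]
  simpa using h2

lemma SL1_poly (P : Polynomial ℝ) : SL1 (P : ℝ⟦X⟧) := by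
  apply summable_of_ne_finset_zero (s := range (P.natDegree + 1))
  intro k hk
  rw [mem_range] at hk
  rw [Polynomial.coeff_coe, Polynomial.coeff_eq_zero_of_natDegree_lt (by omega), abs_zero]

lemma tsum_poly (P : Polynomial ℝ) : ∑' k, coeff k (P : ℝ⟦X⟧) = P.eval 1 := (hasSum_poly P).tsum_eq

/-- The quadratic factor `1 - 2 γ z + z ^ 2`. -/
noncomputable def D (γ : ℝ) : Polynomial ℝ :=
  1 - Polynomial.C (2 * γ) * Polynomial.X + Polynomial.X ^ 2

lemma coe_D (γ : ℝ) : (D γ : ℝ⟦X⟧) = 1 - C (2 * γ) * X + X ^ 2 := by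
  unfold D
  push_cast
  rfl

lemma coeff_D_mul_zero (γ : ℝ) (a : ℝ⟦X⟧) : coeff 0 ((D γ : ℝ⟦X⟧) * a) = coeff 0 a := by
  rw [coe_D, add_mul, sub_mul, one_mul, mul_assoc, map_add, map_sub, coeff_C_mul,
    coeff_zero_X_mul, coeff_X_pow_mul']
  simp

lemma coeff_D_mul_one (γ : ℝ) (a : ℝ⟦X⟧) :
    coeff 1 ((D γ : ℝ⟦X⟧) * a) = coeff 1 a - 2 * γ * coeff 0 a := by
  rw [coe_D, add_mul, sub_mul, one_mul, mul_assoc, map_add, map_sub, coeff_C_mul,
    coeff_succ_X_mul 0 a, coeff_X_pow_mul']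
  simp

lemma coeff_D_mul_add_two (γ : ℝ) (a : ℝ⟦X⟧) (k : ℕ) :
    coeff (k + 2) ((D γ : ℝ⟦X⟧) * a) = coeff (k + 2) a - 2 * γ * coeff (k + 1) a + coeff k a := by
  rw [coe_D, add_mul, sub_mul, one_mul, mul_assoc, map_add, map_sub, coeff_C_mul,
    coeff_succ_X_mul (k + 1) a, coeff_X_pow_mul]

lemma sum_inv_le (k N : ℕ) : ∑ i ∈ range N, 1 / ((k : ℝ) + 1 + i + 1) ^ 2 ≤ 1 / ((k : ℝ) + 1) := by
  have h : ∀ N, ∑ i ∈ range N, 1 / ((k : ℝ) + 1 + i + 1) ^ 2 ≤ 1 / ((k : ℝ) + 1) - 1 / ((k : ℝ) + 1 + N) := by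
    intro N
    induction N with
    | zero => simp
    | succ N ih =>
      rw [sum_range_succ]
      have h1 : 1 / ((k : ℝ) + 1 + N + 1) ^ 2 ≤ 1 / ((k : ℝ) + 1 + N) - 1 / ((k : ℝ) + 1 + (N + 1 : ℕ)) := by
        push_cast
        rw [div_sub_div _ _ (by positivity) (by positivity), div_le_div_iff₀ (by positivity) (by positivity)]
        have : (0:ℝ) ≤ k := Nat.cast_nonneg k
        have : (0:ℝ) ≤ N := Nat.cast_nonneg N
        nlinarith
      linarith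
  refine (h N).trans ?_
  have : (0:ℝ) ≤ 1 / ((k : ℝ) + 1 + N) := by positivity
  linarith

/-- Division with remainder by `1 - 2 γ z + z ^ 2` inside the polynomially decaying sequences. -/
lemma exists_div (γ : ℝ) (S : ℕ → ℝ) (hS0 : S 0 = 0) (hS1 : S 1 = 1)
    (hS : ∀ n, S (n + 2) = 2 * γ * S (n + 1) - S n) (hSb : ∀ n, |S n| ≤ n) (m : ℕ)
    (a : ℝ⟦X⟧) (C : ℝ) (hC : 0 ≤ C) (ha : ∀ k, |coeff k a| ≤ C / ((k : ℝ) + 1) ^ (m + 3)) :
    ∃ (r : Polynomial ℝ) (b : ℝ⟦X⟧), a = r + (D γ : ℝ⟦X⟧) * b ∧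
      ∀ k, |coeff k b| ≤ C / ((k : ℝ) + 1) ^ (m + 1) := by
  have hterm : ∀ k i : ℕ, ∀ s : ℝ, |s| ≤ (i : ℝ) + 2 →
      |coeff (k + 1 + i) a * s| ≤ C / ((k : ℝ) + 1) ^ m * (1 / ((k : ℝ) + 1 + i + 1) ^ 2) := by
    intro k i s hs
    rw [abs_mul]
    have h1 := ha (k + 1 + i)
    push_cast at h1
    have h2 : |s| ≤ (k : ℝ) + 1 + i + 1 := by
      have : (0:ℝ) ≤ k := Nat.cast_nonneg k
      linarith
    calc |coeff (k + 1 + i) a| * |s| ≤ C / ((k : ℝ) + 1 + i + 1) ^ (m + 3) * ((k : ℝ) + 1 + i + 1) := by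
          gcongr
      _ = C / ((k : ℝ) + 1 + i + 1) ^ m * (1 / ((k : ℝ) + 1 + i + 1) ^ 2) := by
          rw [pow_add]
          field_simp
      _ ≤ C / ((k : ℝ) + 1) ^ m * (1 / ((k : ℝ) + 1 + i + 1) ^ 2) := by
          have h3 : (0:ℝ) ≤ i := Nat.cast_nonneg i
          have h4 : ((k : ℝ) + 1) ^ m ≤ ((k : ℝ) + 1 + i + 1) ^ m := by
            gcongr
            linarith
          gcongr
  have hsq : ∀ k : ℕ, Summable fun i : ℕ => C / ((k : ℝ) + 1) ^ m * (1 / ((k : ℝ) + 1 + i + 1) ^ 2) := by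
    intro k
    apply Summable.mul_left
    exact summable_of_sum_range_le (fun i => by positivity) (sum_inv_le k)
  have hsumm : ∀ (k : ℕ) (s : ℕ → ℝ), (∀ i, |s i| ≤ (i : ℝ) + 2) →
      Summable fun i => coeff (k + 1 + i) a * s i := by
    intro k s hs
    refine Summable.of_norm_bounded (hsq k) fun i => ?_
    rw [Real.norm_eq_abs]
    exact hterm k i _ (hs i)
  have hSb0 : ∀ i, |S i| ≤ (i : ℝ) + 2 := fun i => (hSb i).trans (by linarith)
  have hSb1 : ∀ i, |S (i + 1)| ≤ (i : ℝ) + 2 := fun i => (hSb _).trans (by push_cast; linarith)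
  have hSb2 : ∀ i, |S (i + 2)| ≤ (i : ℝ) + 2 := fun i => (hSb _).trans (by push_cast; linarith)
  set bf : ℕ → ℝ := fun k => ∑' i, coeff (k + 1 + i) a * S i with hbf
  set b : ℝ⟦X⟧ := PowerSeries.mk bf with hb
  have h1 : ∀ k, bf k = ∑' i, coeff (k + 2 + i) a * S (i + 1) := by
    intro k
    rw [hbf]
    dsimp only
    rw [(hsumm k S hSb0).tsum_eq_zero_add, hS0, mul_zero, zero_add]
    exact tsum_congr fun i => by congr 3; omega
  have h2 : ∀ k, bf k = coeff (k + 2) a + ∑' i, coeff (k + 3 + i) a * S (i + 2) := by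
    intro k
    rw [h1 k, (hsumm (k + 1) (fun i => S (i + 1)) hSb1).tsum_eq_zero_add, zero_add, hS1, mul_one]
    congr 1
    exact tsum_congr fun i => by congr 3; omega
  have hrec : ∀ k, bf (k + 2) - 2 * γ * bf (k + 1) + bf k = coeff (k + 2) a := by
    intro k
    rw [h2 k, h1 (k + 1)]
    have h3 : bf (k + 2) = ∑' i, coeff (k + 3 + i) a * S i := rfl
    rw [h3]
    have s0 : Summable fun i => coeff (k + 3 + i) a * S i := hsumm (k + 2) S hSb0
    have s1 : Summable fun i => coeff (k + 3 + i) a * S (i + 1) := hsumm (k + 2) _ hSb1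
    have s2 : Summable fun i => coeff (k + 3 + i) a * S (i + 2) := hsumm (k + 2) _ hSb2
    have h4 : (∑' i, coeff (k + 3 + i) a * S i) - 2 * γ * (∑' i, coeff (k + 3 + i) a * S (i + 1))
        + ∑' i, coeff (k + 3 + i) a * S (i + 2) = 0 := by
      rw [← tsum_mul_left, ← s0.tsum_sub (s1.mul_left _), ← (s0.sub (s1.mul_left _)).tsum_add s2]
      convert tsum_zero with i
      rw [hS i]
      ring
    have h5 : ∑' i, coeff (k + 1 + 2 + i) a * S (i + 1) = ∑' i, coeff (k + 3 + i) a * S (i + 1) := rfl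
    rw [h5]
    linarith
  refine ⟨trunc 2 (a - (D γ : ℝ⟦X⟧) * b), b, ?_, fun k => ?_⟩
  · have h6 : ((trunc 2 (a - (D γ : ℝ⟦X⟧) * b) : Polynomial ℝ) : ℝ⟦X⟧) = a - (D γ : ℝ⟦X⟧) * b := by
      ext k
      rw [Polynomial.coeff_coe, coeff_trunc]
      split_ifs with hk
      · rfl
      · obtain ⟨l, rfl⟩ : ∃ l, k = l + 2 := ⟨k - 2, by omega⟩
        rw [map_sub, coeff_D_mul_add_two, hb, coeff_mk, coeff_mk, coeff_mk, hrec]
        ring
    rw [h6]; ring
  · rw [hb, coeff_mk]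
    have h7 : |bf k| ≤ ∑' i : ℕ, C / ((k : ℝ) + 1) ^ m * (1 / ((k : ℝ) + 1 + i + 1) ^ 2) := by
      rw [← Real.norm_eq_abs]
      exact tsum_of_norm_bounded (hsq k).hasSum fun i => by
        rw [Real.norm_eq_abs]; exact hterm k i _ (hSb0 i)
    refine h7.trans ?_
    rw [tsum_mul_left]
    have h8 : ∑' i : ℕ, 1 / ((k : ℝ) + 1 + i + 1) ^ 2 ≤ 1 / ((k : ℝ) + 1) :=
      Real.tsum_le_of_sum_range_le (fun i => by positivity) (sum_inv_le k)
    calc C / ((k : ℝ) + 1) ^ m * ∑' i : ℕ, 1 / ((k : ℝ) + 1 + i + 1) ^ 2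
        ≤ C / ((k : ℝ) + 1) ^ m * (1 / ((k : ℝ) + 1)) := by gcongr
      _ = C / ((k : ℝ) + 1) ^ (m + 1) := by rw [pow_succ]; field_simp

/-- Summation by parts against a quadratic factor. -/
lemma sum_mul_D (γ : ℝ) (c : ℕ → ℝ) (a : ℝ⟦X⟧) (N : ℕ) :
    ∑ k ∈ range (N + 2), c k * coeff k ((D γ : ℝ⟦X⟧) * a) =
      ∑ k ∈ range N, (c k - 2 * γ * c (k + 1) + c (k + 2)) * coeff k a +
        ((c N - 2 * γ * c (N + 1)) * coeff N a + c (N + 1) * coeff (N + 1) a) := by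
  induction N with
  | zero =>
    rw [sum_range_succ, sum_range_succ]
    simp only [range_zero, sum_empty, zero_add]
    rw [coeff_D_mul_zero, coeff_D_mul_one]
    ring
  | succ N ih =>
    rw [sum_range_succ, ih, sum_range_succ _ N, coeff_D_mul_add_two]
    ring

end Pool.Agent.H66.L1
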